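import Mathlib
import Pool.Agent.Lib.P5131b0.Cov
import Pool.Agent.Lib.P5131b0.Dual
import Pool.Agent.Lib.P5131b0.Zero

set_option autoImplicit false

namespace Pool.Agent.Results.MP_5131b0_al.FiniteCompactSets

/-- Cozero sets of a topological space. -/
def IsCozero {X : Type*} [TopologicalSpace X] (U : Set X) : Prop :=
  ∃ f : X → ℝ, Continuous f ∧ U = {x | f x ≠ 0}

/-- Covering dimension zero: every finite cover by cozero sets has a finite refinement (a cover each
member of which lies in a member of the given cover) by pairwise disjoint open sets. -/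
def CoveringDimensionZero (X : Type*) [TopologicalSpace X] : Prop :=
  ∀ (n : ℕ) (U : Fin n → Set X), (∀ i, IsCozero (U i)) → (⋃ i, U i) = Set.univ →
    ∃ (m : ℕ) (V : Fin m → Set X), (∀ j, IsOpen (V j)) ∧
      (∀ i j, i ≠ j → Disjoint (V i) (V j)) ∧ (⋃ j, V j) = Set.univ ∧ ∀ j, ∃ i, V j ⊆ U i

/-- Property (S) of a subgroup `G` of the power `𝕋 ^ 𝔠` of the circle (index set `ℝ`). -/
def PropertyS (G : Subgroup (ℝ → Circle)) : Prop :=
  ¬ (G : Set (ℝ → Circle)).Countable ∧
  Dense (G : Set (ℝ → Circle)) ∧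
  CoveringDimensionZero G ∧
  (∀ K : Subgroup G, (K : Set G).Countable → IsClosed (K : Set G)) ∧
  (∀ K : Subgroup G, ¬ (K : Set G).Countable → Dense (K : Set G))

/-- Reflexivity: the evaluation map is an isomorphism of topological groups onto the bidual
(`PontryaginDual`: continuous characters with the compact-open topology). -/
def IsReflexive (G : Type*) [CommGroup G] [TopologicalSpace G] [IsTopologicalGroup G] : Prop :=
  ∃ e : G ≃ₜ* PontryaginDual (PontryaginDual G), ∀ (g : G) (χ : PontryaginDual G), e g χ = χ g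

/-- There is a reflexive subgroup `G` of `𝕋 ^ 𝔠` with property (S) such that all compact subsets of
`G` and all compact subsets of the dual group of `G` are finite. -/
theorem result : ∃ G : Subgroup (ℝ → Circle), PropertyS G ∧ IsReflexive G ∧
    (∀ K : Set G, IsCompact K → K.Finite) ∧
    (∀ K : Set (PontryaginDual G), IsCompact K → K.Finite) := by
  obtain ⟨C⟩ := Pool.Agent.P5131b0.exists_mat
  refine ⟨Pool.Agent.P5131b0.HH C, ⟨Pool.Agent.P5131b0.uncountable_HH C,
    Pool.Agent.P5131b0.dense_HH C, ?_, Pool.Agent.P5131b0.closed_of_countable C,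
    Pool.Agent.P5131b0.dense_of_uncountable C⟩,
    ⟨Pool.Agent.P5131b0.evEquiv C, Pool.Agent.P5131b0.evEquiv_apply C⟩,
    Pool.Agent.P5131b0.finite_of_compact C, Pool.Agent.P5131b0.finite_of_compact_dual C⟩
  intro n U hU hcov
  choose f hf hfU using hU
  obtain ⟨V, h1, h2, h3, h4⟩ := Pool.Agent.P5131b0.exists_partition
    (Pool.Agent.P5131b0.zero_dim C) n f hf Set.univ isClopen_univ (by
    intro x _
    have hx : x ∈ ⋃ i, U i := by rw [hcov]; trivial
    obtain ⟨i, hi⟩ := Set.mem_iUnion.1 hx
    rw [hfU i] at hi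
    exact ⟨i, hi⟩)
  refine ⟨n, V, fun j => (h1 j).isOpen, h2, ?_, fun j => ⟨j, ?_⟩⟩
  · ext x
    rw [Set.mem_iUnion]
    exact ⟨fun _ => trivial, fun hx => (h3 x).1 hx⟩
  · intro x hx
    rw [hfU j]
    exact h4 j x hx

end Pool.Agent.Results.MP_5131b0_al.FiniteCompactSets
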